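import Pool.Agent.U26Z.DX.Main

/-!
# Primes in short intervals: one of three, of four, of boundedly many dilates is always good
-/

set_option autoImplicit false

namespace Pool.Agent.Results.MP_31d0eb_nt.BoundedlyManyDilates

open Filter Topology MeasureTheory ProbabilityTheory
open scoped NNReal

/-- the number of the primes in `(x, x + H]` -/
noncomputable def primesIn (x H : ℝ) : ℕ := ((Finset.Ioc ⌊x⌋₊ ⌊x + H⌋₊).filter Nat.Prime).card

/-- the number of the primes in `(x, x + H]` divided by `H / log x` -/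
noncomputable def density (x H : ℝ) : ℝ := primesIn x H * Real.log x / H

/-- for all large `x` there is a `j` such that for all `x ^ θ ≤ H ≤ x` the interval `(l_j x, l_j x + H]` has the expected
number of primes, up to a factor as close to `1` as we want -/
def OneIsGood (θ : ℝ) {n : ℕ} (l : Fin n → ℝ) : Prop :=
  ∀ δ : ℝ, 0 < δ → ∀ᶠ x : ℝ in atTop, ∃ j, ∀ H : ℝ, x ^ θ ≤ H → H ≤ x → |density (l j * x) H - 1| ≤ δ

/-- for independent random dilations `lam 0, lam 1, …` with bounded densities on an interval `[a, b]` of positive numbers,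
almost surely, for all large `x`, for all but at most `r` of the `j < x ^ c`, all the intervals `(lam_j x, lam_j x + H]`,
`x ^ θ ≤ H ≤ x`, have the expected number of primes -/
def FewExceptions (θ : ℝ) (r : ℕ) : Prop :=
  ∃ c : ℝ, 0 < c ∧ ∀ (Ω : Type) [MeasurableSpace Ω] (P : Measure Ω) [IsProbabilityMeasure P] (lam : ℕ → Ω → ℝ)
    (a b : ℝ) (M : ℝ≥0), 0 < a → (∀ j, Measurable (lam j)) → iIndepFun lam P →
    (∀ j, P.map (lam j) ≤ M • volume.restrict (Set.Icc a b)) →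
    ∀ᵐ ω ∂P, ∀ δ : ℝ, 0 < δ → ∀ᶠ x : ℝ in atTop,
      {j : ℕ | (j : ℝ) < x ^ c ∧ ∃ H : ℝ, x ^ θ ≤ H ∧ H ≤ x ∧ δ < |density (lam j ω * x) H - 1|}.encard ≤ r

open Pool.Agent.U26Z.DX in
theorem both {θ μ : ℝ} (hFG : FG (1 - θ) μ) (hθ0 : 0.167 ≤ θ) (hθ1 : θ ≤ 1) (hμ : 0 ≤ μ) :
    ∃ η : ℝ, 0 < η ∧ ∀ r : ℕ, 1 - θ < (r + 1) * (μ + η / 2) →
      (∀ᵐ l : Fin (r + 1) → ℝ, (∀ j, 0 < l j) → OneIsGood θ l) ∧ FewExceptions θ r := by
  obtain ⟨η, hη, hv⟩ := vol_of hFG hθ0 hθ1 hμ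
  refine ⟨η, hη, fun r hr => ⟨tup_all hθ0 hθ1 hμ hη hv hr, η / 4, by positivity, ?_⟩⟩
  intro Ω _ P _ lam a b M ha hm hi hlaw
  exact few_all hθ0 hθ1 hμ hη hv hr Ω P lam a b M ha hm hi hlaw

theorem result :
    ((∀ᵐ l : Fin 3 → ℝ, (∀ j, 0 < l j) → OneIsGood 0.505 l) ∧
      (∀ᵐ l : Fin 4 → ℝ, (∀ j, 0 < l j) → OneIsGood 0.475 l) ∧
      ∃ n : ℕ, ∀ᵐ l : Fin n → ℝ, (∀ j, 0 < l j) → OneIsGood 0.167 l) ∧
    FewExceptions 0.505 2 ∧ FewExceptions 0.475 3 ∧ ∃ r : ℕ, FewExceptions 0.167 r := by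
  obtain ⟨η₁, h1, H1⟩ := both (θ := 0.505) (μ := 0.165) (by
    have := Pool.Agent.U26Z.DX.fg_A
    norm_num at this ⊢
    exact this) (by norm_num) (by norm_num) (by norm_num)
  obtain ⟨η₂, h2, H2⟩ := both (θ := 0.475) (μ := 0.13125) (by
    have := Pool.Agent.U26Z.DX.fg_B
    norm_num at this ⊢
    exact this) (by norm_num) (by norm_num) (by norm_num)
  obtain ⟨η₃, h3, H3⟩ := both (θ := 0.167) (μ := 0) (by
    have := Pool.Agent.U26Z.DX.fg_wide
    norm_num at this ⊢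
    exact this) (by norm_num) (by norm_num) (by norm_num)
  obtain ⟨r, hr⟩ := exists_nat_ge (2 / η₃)
  obtain ⟨g1, f1⟩ := H1 2 (by push_cast; linarith)
  obtain ⟨g2, f2⟩ := H2 3 (by push_cast; linarith)
  obtain ⟨g3, f3⟩ := H3 r (by
    rw [div_le_iff₀ h3] at hr
    nlinarith)
  exact ⟨⟨g1, g2, r + 1, g3⟩, f1, f2, r, f3⟩

end Pool.Agent.Results.MP_31d0eb_nt.BoundedlyManyDilates
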