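import Pool.Agent.H83SI.Fin2
import Pool.Agent.H40E9.GP.Cat

/-!
# The asymptotic formula for primes in short intervals along generic sequences

`density x H = π(x, H) log x / H`. The question asks for `density x H → 1` as `x → ∞`, uniformly for
`x ^ ε ≤ H ≤ x`, for every `ε > 0`. Here `x` runs through the terms of a sequence which depends on a real parameter,
such as `n ^ c` or `a ^ n`, and the parameter is generic.

* *Dimension and measure* (`Law θ μ`, for `θ = 0.505, 0.499, 0.475, 0.167`). For families of sequences `f k t` with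
  `log (f k t)` expanding in `t` the formula holds along the whole sequence, at every term beyond some place and
  uniformly in `x ^ θ ≤ H ≤ x`, for all parameters `t` outside a set of Hausdorff dimension less than one. Sharper
  and numerical forms for `n ^ c` and `α ^ (b k)`, and bounds for the number of exceptional terms for all `c ≥ 1`.
* *Category.* The formula at ALL large `x`, for the lengths from `x ^ θ` to `x`, holds if and only if the ratios
  `a > 1` for which it fails along `a ^ n` form a meagre set; the same for the exponents `c > 1` and `n ^ c`. So the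
  question is exactly whether the formula holds along `a ^ n` for generic `a` in the sense of Baire.

The first part combines the bound for the measure of the exceptional points of `Pool.Agent.U26Z.DX` with coverings by
intervals (`Pool.Agent.H83SI`); the second part is elementary (`Pool.Agent.H40E9.GP.Cat`).
-/

set_option autoImplicit false

namespace Pool.Agent.Results.MP_31d0eb_nt.GenericSequences

open Finset Filter Topology MeasureTheory

/-- the number `π(x, H)` of the primes in `(x, x + H]` -/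
noncomputable def primesIn (x H : ℝ) : ℕ := ((Ioc ⌊x⌋₊ ⌊x + H⌋₊).filter Nat.Prime).card

/-- `π(x, H) log x / H` -/
noncomputable def density (x H : ℝ) : ℝ := primesIn x H * Real.log x / H

/-- the asymptotic formula at the terms of the sequence, uniformly for the lengths from `x ^ θ` to `x` -/
def Good (θ : ℝ) (x : ℕ → ℝ) : Prop :=
  ∀ δ : ℝ, 0 < δ → ∀ᶠ k : ℕ in atTop, ∀ H : ℝ, x k ^ θ ≤ H → H ≤ x k → |density (x k) H - 1| ≤ δ

/-- at most `N ^ E` of the `n ≤ N` are exceptions to the formula at `n ^ c` -/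
def Few (θ c E : ℝ) : Prop :=
  ∀ δ : ℝ, 0 < δ → ∀ᶠ N : ℕ in atTop, ({n : ℕ | 1 ≤ n ∧ n ≤ N ∧ ∃ H : ℝ, ((n : ℝ) ^ c) ^ θ ≤ H ∧ H ≤ (n : ℝ) ^ c ∧
    δ < |density ((n : ℝ) ^ c) H - 1|}.ncard : ℝ) ≤ (N : ℝ) ^ E

/-- the laws for the lengths from `x ^ θ` to `x`: (i) for every family `f k t`, `t ∈ S`, with `f k t ≥ a k > 0`,
`∑ (a k) ^ (-κ) < ∞`, `0 < κ < μ`, and `|log (f k t) - log (f k t')| ≥ c₀ |t - t'|` for all large `k`, the dimension of
the `t ∈ S` for which the formula fails along the sequence is at most `1 - (μ - κ) / (1 - θ)`; (ii) the same for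
`n ^ c`, `c ≥ c₁ > 1 / μ`; (iii) for `a ^ b k` with `b k / log k → ∞`; (iv) for almost every `c > 1 / μ` it holds along
`n ^ c`; (v) for almost every `c ∈ [1, 1 / μ)` at most `N ^ (1 - μ c)` of the `n ≤ N` are exceptions; (vi) for every
`c ≥ 1` at most `N ^ max (1 - μ c) ((1 - θ - μ) c)` are -/
def Law (θ μ : ℝ) : Prop :=
  (∀ (S : Set ℝ) (f : ℕ → ℝ → ℝ) (a : ℕ → ℝ) (c₀ κ : ℝ), 0 < c₀ → 0 < κ → κ < μ → (∀ k, 0 < a k) →
    Summable (fun k => a k ^ (-κ)) → (∀ k, ∀ t ∈ S, a k ≤ f k t) →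
    (∀ᶠ k : ℕ in atTop, ∀ t ∈ S, ∀ t' ∈ S, c₀ * |t - t'| ≤ |Real.log (f k t) - Real.log (f k t')|) →
    dimH {t : ℝ | t ∈ S ∧ ¬ Good θ (fun k => f k t)} ≤ ENNReal.ofReal (1 - (μ - κ) / (1 - θ))) ∧
  (∀ c₁ : ℝ, 1 / μ < c₁ →
    dimH {c : ℝ | c₁ ≤ c ∧ ¬ Good θ (fun n => (n : ℝ) ^ c)} ≤ ENNReal.ofReal (1 - (μ - 1 / c₁) / (1 - θ))) ∧
  (∀ b : ℕ → ℝ, Tendsto (fun k : ℕ => b k / Real.log k) atTop atTop →
    dimH {α : ℝ | 1 < α ∧ ¬ Good θ (fun k => α ^ b k)} ≤ ENNReal.ofReal (1 - μ / (1 - θ))) ∧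
  (∀ᵐ c : ℝ, 1 / μ < c → Good θ (fun n => (n : ℝ) ^ c)) ∧
  (∀ᵐ c : ℝ, 1 ≤ c → c < 1 / μ → Few θ c (1 - μ * c)) ∧
  (∀ c : ℝ, 1 ≤ c → Few θ c (max (1 - μ * c) ((1 - θ - μ) * c)))

/-- the formula at all large `x`, uniformly for the lengths from `x ^ θ` to `x`: for `θ = ε`, for all `ε > 0`, this is
the question -/
def Pointwise (θ : ℝ) : Prop :=
  ∀ δ : ℝ, 0 < δ → ∀ᶠ x : ℝ in atTop, ∀ H : ℝ, x ^ θ ≤ H → H ≤ x → |density x H - 1| ≤ δ

theorem result :
    (Law 0.505 0.165 ∧ Law 0.499 0.16 ∧ Law 0.475 0.13125 ∧ ∃ μ : ℝ, 0 < μ ∧ Law 0.167 μ) ∧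
    (∀ θ : ℝ, θ ≤ 1 → (Pointwise θ ↔ IsMeagre {a : ℝ | 1 < a ∧ ¬ Good θ (fun n => a ^ n)}) ∧
      (Pointwise θ ↔ IsMeagre {c : ℝ | 1 < c ∧ ¬ Good θ (fun n => (n : ℝ) ^ c)})) :=
  ⟨Pool.Agent.H83SI.laws,
    fun _ hθ => ⟨Pool.Agent.H40E9.GP.pnt_iff_pow hθ, Pool.Agent.H40E9.GP.pnt_iff_exp hθ⟩⟩

end Pool.Agent.Results.MP_31d0eb_nt.GenericSequences
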