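import Pool.Agent.U26Z.HP.Fin

/-!
# The extremal densities of the primes in windows of length `x ^ θ` are attained in homogeneous windows

`density x H` is `π(x, H) log x / H`. A window `(x, x + Y]` is homogeneous of density `u` between the
lengths `y₁` and `y₂`, up to `ε`, if all but at most `ε Y` of its integers `n` satisfy
`|density n y - u| ≤ ε` for ALL real `y` in `[y₁, y₂]` simultaneously.

For all exponents `θ` outside a countable set the lower and the upper limit of the density of the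
windows of length `x ^ θ` are attained in windows which are homogeneous on a whole range
`[x ^ (θ - κ), x ^ (θ + κ)]` of lengths, and the limits of these extremal densities for `θ → 0` in
windows which are homogeneous between `x ^ θ` and `x ^ (M θ)`, for every `M`. It follows that the
asymptotic formula of the question holds if and only if there is no exponent `θ` with homogeneous
windows of a density other than `1`.

From the starting files: the greedy decomposition lemmas (`Pool.Agent.N610.HX`), the Brun-Titchmarsh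
inequality (`Pool.Agent.H902R3`), the prime number theorem (`Pool.Agent.Cov.PNT`).
-/

set_option autoImplicit false

open Finset Filter Topology

namespace Pool.Agent.Results.MP_31d0eb_nt.HomogeneousPowerWindows

/-- the number `π(x, H)` of primes `p` with `x < p ≤ x + H` -/
noncomputable def primesIn (x H : ℝ) : ℕ := ((Ioc ⌊x⌋₊ ⌊x + H⌋₊).filter Nat.Prime).card

/-- `π(x, H) log x / H` -/
noncomputable def density (x H : ℝ) : ℝ := (primesIn x H : ℝ) * Real.log x / H

/-- the assertion of Q1 -/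
def UniformAsymptotics : Prop := ∀ ε : ℝ, 0 < ε → ∀ δ : ℝ, 0 < δ → ∃ X : ℝ, ∀ x : ℝ, X ≤ x →
  ∀ H : ℝ, x ^ ε ≤ H → H ≤ x → |density x H - 1| ≤ δ

/-- the lower limit of `π(x, x ^ θ) log x / x ^ θ` for `x → ∞` -/
noncomputable def lowerDensity (θ : ℝ) : EReal :=
  liminf (fun x : ℝ => ((density x (x ^ θ) : ℝ) : EReal)) atTop

/-- the upper limit of `π(x, x ^ θ) log x / x ^ θ` for `x → ∞` -/
noncomputable def upperDensity (θ : ℝ) : EReal :=
  limsup (fun x : ℝ => ((density x (x ^ θ) : ℝ) : EReal)) atTop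

open Classical in
/-- The window `(x, x + Y]` is homogeneous of density `u`, up to `ε`, between the lengths `y₁` and
`y₂`: all but at most `ε Y` of its integers `n` satisfy `|density n y - u| ≤ ε` for ALL real
`y₁ ≤ y ≤ y₂`. -/
def Homogeneous (u ε x Y y₁ y₂ : ℝ) : Prop :=
  (((Ioc ⌊x⌋₊ ⌊x + Y⌋₊).filter (fun n : ℕ => ¬ ∀ y : ℝ, y₁ ≤ y → y ≤ y₂ →
    |density n y - u| ≤ ε)).card : ℝ) ≤ ε * Y

/-- There are homogeneous windows of density `u` at the exponent `θ`: for every `ε > 0` there is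
`κ > 0` such that for arbitrarily large `x` the window `(x, x + x ^ (θ + 2 κ)]` is homogeneous of
density `u`, up to `ε`, between the lengths `x ^ (θ - κ)` and `x ^ (θ + κ)`. -/
def HomogeneousAt (θ u : ℝ) : Prop := ∀ ε : ℝ, 0 < ε → ∃ κ : ℝ, 0 < κ ∧ κ < θ ∧ θ + 2 * κ < 1 ∧
  ∃ᶠ x : ℝ in atTop, Homogeneous u ε x (x ^ (θ + 2 * κ)) (x ^ (θ - κ)) (x ^ (θ + κ))

open Pool.Agent.U26Z.HP

lemma density_eq (x : ℝ) {H : ℝ} (hH : 0 ≤ H) : density x H = Pool.Agent.N610.HX.R x H := by
  unfold density primesIn Pool.Agent.N610.HX.R Pool.Agent.N610.HX.F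
  rw [pc_sub (Nat.floor_mono (by linarith)), div_div_eq_mul_div]

lemma lower_eq (θ : ℝ) : lowerDensity θ = Lo θ := by
  unfold lowerDensity Lo
  refine liminf_congr ?_
  filter_upwards [eventually_gt_atTop 0] with x hx
  rw [density_eq x (Real.rpow_nonneg hx.le θ)]

lemma upper_eq (θ : ℝ) : upperDensity θ = Up θ := by
  unfold upperDensity Up
  refine limsup_congr ?_
  filter_upwards [eventually_gt_atTop 0] with x hx
  rw [density_eq x (Real.rpow_nonneg hx.le θ)]

lemma hom_iff {u ε a b b' x : ℝ} (hx : 0 < x) :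
    Homogeneous u ε x (x ^ b') (x ^ a) (x ^ b) ↔ Hom u ε a b b' x := by
  classical
  unfold Homogeneous Hom
  have e : ∀ n : ℕ, (¬ ∀ y : ℝ, x ^ a ≤ y → y ≤ x ^ b → |density n y - u| ≤ ε) ↔
      (¬ ∀ y : ℝ, x ^ a ≤ y → y ≤ x ^ b → |Pool.Agent.N610.HX.R n y - u| ≤ ε) := by
    intro n
    rw [not_iff_not]
    refine forall_congr' fun y => forall_congr' fun hy => ?_
    rw [density_eq _ ((Real.rpow_nonneg hx.le a).trans hy)]
  simp only [e]

lemma freq_iff {u ε a b b' : ℝ} :
    (∃ᶠ x : ℝ in atTop, Homogeneous u ε x (x ^ b') (x ^ a) (x ^ b)) ↔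
      ∃ᶠ x : ℝ in atTop, Hom u ε a b b' x := by
  apply frequently_congr
  filter_upwards [eventually_gt_atTop 0] with x hx
  exact hom_iff hx

lemma at_iff (θ u : ℝ) : HomogeneousAt θ u ↔ Real' θ u := by
  unfold HomogeneousAt Real'
  simp only [freq_iff]

lemma ua_iff : UniformAsymptotics ↔ Q1 := by
  unfold UniformAsymptotics Q1
  simp only [eventually_atTop]
  constructor
  · intro h ε hε δ hδ
    obtain ⟨X, hX⟩ := h ε hε δ hδ
    refine ⟨max X 1, fun x hx H h1 h2 => ?_⟩
    have hx1 : 1 ≤ x := (le_max_right _ _).trans hx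
    rw [← density_eq x ((Real.rpow_nonneg (by linarith) ε).trans h1)]
    exact hX x ((le_max_left _ _).trans hx) H h1 h2
  · intro h ε hε δ hδ
    obtain ⟨X, hX⟩ := h ε hε δ hδ
    refine ⟨max X 1, fun x hx H h1 h2 => ?_⟩
    have hx1 : 1 ≤ x := (le_max_right _ _).trans hx
    rw [density_eq x ((Real.rpow_nonneg (by linarith) ε).trans h1)]
    exact hX x ((le_max_left _ _).trans hx) H h1 h2

/-- (1) The asymptotic formula of Q1 holds if and only if no exponent `θ` in `(0, 1)` has homogeneous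
windows of a density `u ≠ 1`.

(2) For all `θ` in `(0, 1)` outside a countable set the lower and upper densities are real numbers
`0 ≤ l ≤ 1 ≤ u ≤ 2 / θ`, and there are homogeneous windows of the densities `l` and `u` at `θ`.

(3) For `θ → 0` the lower density tends to some `l` in `[0, 1]`, and for all `ε > 0` and `M ≥ 1`, for
all small `θ` there are arbitrarily large `x` such that the window `(x, x + x ^ (2 M θ)]` is
homogeneous of density `l`, up to `ε`, between the lengths `x ^ θ` and `x ^ (M θ)`; the same holds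
for the limit of the upper density, if it is finite. -/
theorem result :
    (UniformAsymptotics ↔ ∀ θ u : ℝ, 0 < θ → θ < 1 → 0 ≤ u → u ≠ 1 → ¬ HomogeneousAt θ u) ∧
    (∃ E : Set ℝ, E.Countable ∧ ∀ θ : ℝ, 0 < θ → θ < 1 → θ ∉ E → ∃ l u : ℝ,
      lowerDensity θ = (l : EReal) ∧ upperDensity θ = (u : EReal) ∧ 0 ≤ l ∧ l ≤ 1 ∧ 1 ≤ u ∧
        u ≤ 2 / θ ∧ HomogeneousAt θ l ∧ HomogeneousAt θ u) ∧
    (∃ l : ℝ, 0 ≤ l ∧ l ≤ 1 ∧ Tendsto lowerDensity (𝓝[>] 0) (𝓝 (l : EReal)) ∧
      ∀ ε M : ℝ, 0 < ε → 1 ≤ M → ∃ θ₀ : ℝ, 0 < θ₀ ∧ ∀ θ : ℝ, 0 < θ → θ < θ₀ →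
        ∃ᶠ x : ℝ in atTop, Homogeneous l ε x (x ^ (2 * M * θ)) (x ^ θ) (x ^ (M * θ))) ∧
    (∃ u : EReal, 1 ≤ u ∧ Tendsto upperDensity (𝓝[>] 0) (𝓝 u) ∧ ∀ v : ℝ, u = (v : EReal) →
      ∀ ε M : ℝ, 0 < ε → 1 ≤ M → ∃ θ₀ : ℝ, 0 < θ₀ ∧ ∀ θ : ℝ, 0 < θ → θ < θ₀ →
        ∃ᶠ x : ℝ in atTop, Homogeneous v ε x (x ^ (2 * M * θ)) (x ^ θ) (x ^ (M * θ))) := by
  have e1 : lowerDensity = Lo := funext lower_eq
  have e2 : upperDensity = Up := funext upper_eq
  rw [ua_iff, e1, e2]
  simp only [at_iff, freq_iff]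
  exact ⟨criterion, ⟨Ex, Ex_countable, extremal⟩, zeroL, zeroU⟩

end Pool.Agent.Results.MP_31d0eb_nt.HomogeneousPowerWindows
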