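import Pool.Agent.U26Z.RS.Equiv
import Pool.Agent.U26Z.RS.LowR

/-!
# How many short windows determine the density of the primes near every `x`?

Let `D(y, H) = π(y, H) log y / H`. The problem (Q1) asks whether `D(x, Y) → 1` uniformly in `x ^ ε ≤ Y ≤ x`. Here the
density `D(x, Y)` is compared with the average `A(x, Y, H, m)` of `D(y, H)` over `m` points `y = x + (l j) Y`, `j < m`, of the
interval `(x, x + Y]`, where the numbers `l j ∈ [0, 1]` are FIXED and `x`, `Y`, `H`, `m` are arbitrary.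

(1) About `log x` windows of a length of the order `log x` suffice at EVERY scale `Y = x ^ θ`: if `l 0, l 1, ...` are
independent and uniformly distributed on `[0, 1]`, then almost surely, for ALL large `x`, ALL `x ^ θ ≤ Y ≤ x`, ALL
`C log x ≤ H ≤ Y / C` and ALL `m ≥ C log x` the average `A(x, Y, H, m)` differs from `D(x, Y)` by at most `ε`.

(2) For `x ^ 0.584 ≤ Y ≤ x` (and all `C log x ≤ H ≤ Y`) it differs from `1` by at most `ε`. This includes the lengths
`H = x ^ ε` of the problem and the lengths `H = (log x) ^ N` of Maier's theorem, for which `D(x, H)` does not tend to `1`.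

(3) So Q1 is equivalent to a statement about windows of length `C log x`: almost surely, Q1 is true if and only if the
averages over `⌈C log x⌉` windows of length `C log x` are right.

(4) `(log x) ^ (1 - η)` windows never suffice, whatever the points and the weights are, at any of the lengths
`K log x ≤ H ≤ (log x) ^ A` and at any scale. So the number of windows which are needed to know the density of the primes
near every `x` is `(log x) ^ (1 + o(1))`.

The proof of (1): the number of the primes in windows of the length of the logarithm has a bounded exponential moment in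
every interval `(x, x + x ^ θ]` (`Pool.Agent.U26Z.EX.Em2`), Chernoff's bound around the mean, and the union over all `x`, `Y`,
`H`, `m`. The proof of (4): by Dirichlet's theorem on simultaneous approximation there is `Y` such that all `(l j) Y` are
within `1` of a multiple of a modulus `W`, because `W ^ m = x ^ o(1)`; in the rows of Maier's matrix of the modulus `W`
all `m` windows have a wrong number of primes on average, but `(x, x + Y]` has the right number on average
(`Pool.Agent.N610.MS` from the starting files gives the modulus).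
-/

set_option autoImplicit false

open Finset Filter Topology MeasureTheory ProbabilityTheory

namespace Pool.Agent.Results.MP_31d0eb_nt.SamplingThreshold

/-- the number `π(x, H)` of the primes in `(x, x + H]` -/
noncomputable def primesIn (x H : ℝ) : ℕ := ((Ioc ⌊x⌋₊ ⌊x + H⌋₊).filter Nat.Prime).card

/-- `π(x, H) log x / H` -/
noncomputable def density (x H : ℝ) : ℝ := primesIn x H * Real.log x / H

/-- the statement Q1 of the problem -/
def UniformAsymptotics : Prop := ∀ ε δ : ℝ, 0 < ε → 0 < δ → ∀ᶠ x : ℝ in atTop, ∀ H : ℝ, x ^ ε ≤ H → H ≤ x →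
  |density x H - 1| ≤ δ

/-- Let `l 0, l 1, ...` be independent and uniformly distributed on `[0, 1]`.

(1) For all `θ, ε > 0` there is `C` such that almost surely, for all large real `x`, all real `Y` with `x ^ θ ≤ Y ≤ x`,
all real `H` with `C log x ≤ H` and `C H ≤ Y` and all `m ≥ C log x` the average of `density (x + (l j) Y) H` over `j < m`
differs from `density x Y` by at most `ε`.

(2) For every `ε > 0` there is `C` such that almost surely, for all large real `x`, all real `Y` with `x ^ 0.584 ≤ Y ≤ x`,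
all real `H` with `C log x ≤ H ≤ Y` and all `m ≥ C log x` this average differs from `1` by at most `ε`.

(3) Almost surely, Q1 holds if and only if for all `θ, ε > 0`, all sufficiently large `C`, all sufficiently large `x` and all
`Y` with `x ^ θ ≤ Y ≤ x` the average over `⌈C log x⌉` points for the length `H = C log x` differs from `1` by at most `ε`.

(4) For all `A` and `η > 0` there is `δ > 0` such that for all `B` there is `K > 0` such that for all `θ, ε > 0`, all large
`X`, all `m ≤ (log X) ^ (1 - η)`, ALL points `t 0, ..., t (m - 1)` of `[0, 1]` and all `T` with `X ^ θ ≤ T ≤ X ^ (1 - 2 ε)`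
there is `Y` with `T ≤ Y ≤ T X ^ ε` such that for all real weights `c 0, ..., c (m - 1)` with sum `1` and `∑ |c j| ≤ B` and
for all `H` with `K log X ≤ H ≤ (log X) ^ A` there are integers `x`, `x'` in `(X, 3 X)` with
`∑ (c j) density (x + (t j) Y) H ≥ density x Y + δ` and `∑ (c j) density (x' + (t j) Y) H ≤ density x' Y - δ`. -/
theorem result {Ω : Type*} [MeasurableSpace Ω] (P : Measure Ω) [IsProbabilityMeasure P] (l : ℕ → Ω → ℝ)
    (hm : ∀ j, Measurable (l j)) (hi : iIndepFun l P) (hu : ∀ j, P.map (l j) = volume.restrict (Set.Icc 0 1)) :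
    (∀ θ ε : ℝ, 0 < θ → 0 < ε → ∃ C : ℝ, 0 < C ∧ ∀ᵐ ω ∂P, ∀ᶠ x : ℝ in atTop, ∀ Y : ℝ,
      x ^ θ ≤ Y → Y ≤ x → ∀ H : ℝ, C * Real.log x ≤ H → C * H ≤ Y → ∀ m : ℕ, C * Real.log x ≤ m →
        |(∑ j ∈ range m, density (x + l j ω * Y) H) / m - density x Y| ≤ ε) ∧
    (∀ ε : ℝ, 0 < ε → ∃ C : ℝ, 0 < C ∧ ∀ᵐ ω ∂P, ∀ᶠ x : ℝ in atTop, ∀ Y : ℝ,
      x ^ (0.584 : ℝ) ≤ Y → Y ≤ x → ∀ H : ℝ, C * Real.log x ≤ H → H ≤ Y → ∀ m : ℕ, C * Real.log x ≤ m →
        |(∑ j ∈ range m, density (x + l j ω * Y) H) / m - 1| ≤ ε) ∧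
    (∀ᵐ ω ∂P, (UniformAsymptotics ↔
      ∀ θ ε : ℝ, 0 < θ → 0 < ε → ∀ᶠ C : ℝ in atTop, ∀ᶠ x : ℝ in atTop, ∀ Y : ℝ, x ^ θ ≤ Y → Y ≤ x →
        |(∑ j ∈ range ⌈C * Real.log x⌉₊, density (x + l j ω * Y) (C * Real.log x)) / (⌈C * Real.log x⌉₊ : ℝ) - 1| ≤ ε)) ∧
    (∀ A η : ℝ, 0 < η → ∃ δ : ℝ, 0 < δ ∧ ∀ B : ℝ, ∃ K : ℝ, 0 < K ∧ ∀ θ ε : ℝ, 0 < θ → 0 < ε → ∀ᶠ X : ℝ in atTop,
      ∀ m : ℕ, (m : ℝ) ≤ Real.log X ^ (1 - η) → ∀ t : ℕ → ℝ, (∀ j < m, 0 ≤ t j ∧ t j ≤ 1) →
      ∀ T : ℝ, X ^ θ ≤ T → T ≤ X ^ (1 - 2 * ε) → ∃ Y : ℝ, T ≤ Y ∧ Y ≤ T * X ^ ε ∧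
        ∀ c : ℕ → ℝ, ∑ j ∈ range m, c j = 1 → ∑ j ∈ range m, |c j| ≤ B →
        ∀ H : ℝ, K * Real.log X ≤ H → H ≤ Real.log X ^ A →
          (∃ x : ℕ, X < x ∧ (x : ℝ) < 3 * X ∧ density x Y + δ ≤ ∑ j ∈ range m, c j * density (x + t j * Y) H) ∧
          (∃ x : ℕ, X < x ∧ (x : ℝ) < 3 * X ∧ ∑ j ∈ range m, c j * density (x + t j * Y) H ≤ density x Y - δ)) := by
  have hd : ∀ x H : ℝ, density x H = Pool.Agent.U26Z.DX.density x H := fun x H => rfl
  refine ⟨fun θ ε hθ hε => ?_, fun ε hε => ?_, ?_, fun A η hη => ?_⟩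
  · obtain ⟨C, hC, h⟩ := Pool.Agent.U26Z.RS.sampR hm hi hu hθ hε
    refine ⟨C, hC, ?_⟩
    filter_upwards [h] with ω hω
    filter_upwards [hω, eventually_ge_atTop (3 : ℝ)] with x hx hx3 Y h1 h2 H h3 h4 m h5
    have hlog : 0 < Real.log x := Real.log_pos (by linarith)
    have hm0 : (0 : ℝ) < m := lt_of_lt_of_le (by positivity) h5
    have h6 := hx Y h1 h2 H h3 h4 m h5
    simp only [hd]
    rw [div_sub' hm0.ne', abs_div, abs_of_pos hm0, div_le_iff₀ hm0, mul_comm (m : ℝ)]
    exact h6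
  · obtain ⟨C, hC, h⟩ := Pool.Agent.U26Z.EX.samp1 hm hi hu hε
    refine ⟨C, hC, ?_⟩
    filter_upwards [h] with ω hω
    filter_upwards [hω, eventually_ge_atTop (3 : ℝ)] with x hx hx3 Y h1 h2 H h3 h4 m h5
    have hlog : 0 < Real.log x := Real.log_pos (by linarith)
    have hm0 : (0 : ℝ) < m := lt_of_lt_of_le (by positivity) h5
    have h6 := hx Y h1 h2 H h3 h4 m h5
    simp only [hd]
    rw [div_sub_one hm0.ne', abs_div, abs_of_pos hm0, div_le_iff₀ hm0]
    exact h6
  · exact Pool.Agent.U26Z.RS.ae_iff hm hi hu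
  · exact Pool.Agent.U26Z.RS.lowerR A η hη

end Pool.Agent.Results.MP_31d0eb_nt.SamplingThreshold
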